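import Pool.Agent.H500.ED.Stm
import Pool.Agent.H500.R2.Gal

set_option autoImplicit false
set_option linter.unusedSectionVars false

/-!
# Project ED (helper500), PART D3: the characters `η` (by helper218)
-/

namespace Pool.Agent.H218.ED.ETA

open NumberField IsDedekindDomain Filter Topology Polynomial
open Pool.Agent.W401.Cheb (GK IsFrob IsInert dens)
open Pool.Agent.H500.HC (InRay QBar ZBar jz IsRayChar)
open Pool.Agent.H500.SV (Above Fld)
open Pool.Agent.H500.TH (typB)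
open Pool.Agent.H500.ED

/-- `m` is invertible in `k` -/
theorem cast_ne {k : Type} [Field k] {l m : ℕ} (hl : l.Prime) (hlk : (l : k) = 0) (hm : ¬ l ∣ m) :
    (m : k) ≠ 0 := by
  intro h
  have h1 : IsCoprime (l : ℤ) (m : ℤ) :=
    Nat.isCoprime_iff_coprime.2 ((Nat.Prime.coprime_iff_not_dvd hl).2 hm)
  obtain ⟨a, b, hab⟩ := h1
  have h2 := congrArg (fun x : ℤ => (x : k)) hab
  simp only [Int.cast_add, Int.cast_mul, Int.cast_natCast, Int.cast_one] at h2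
  rw [hlk, h, mul_zero, mul_zero, add_zero] at h2
  exact zero_ne_one h2

/-- roots which are congruent are equal -/
theorem ru {k : Type} [Field k] (r : ZBar →+* k) {l m : ℕ} (hl : l.Prime) (hlk : (l : k) = 0)
    (hm : ¬ l ∣ m) {a b : ZBar} (hab : a ^ m = b ^ m) (hr : r a = r b) (hb : r b ≠ 0) : a = b := by
  by_contra hne
  have h1 := (Commute.all a b).geom_sum₂_mul m
  rw [hab, sub_self] at h1
  have h2 : ∑ i ∈ Finset.range m, a ^ i * b ^ (m - 1 - i) = 0 :=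
    (mul_eq_zero.1 h1).resolve_right (sub_ne_zero.2 hne)
  have h3 := congrArg r h2
  rw [map_sum, map_zero] at h3
  have h4 : ∀ i ∈ Finset.range m, r (a ^ i * b ^ (m - 1 - i)) = r b ^ (m - 1) := by
    intro i hi
    rw [map_mul, map_pow, map_pow, hr, ← pow_add]
    congr 1
    have := Finset.mem_range.1 hi
    omega
  rw [Finset.sum_congr rfl h4, Finset.sum_const, Finset.card_range, nsmul_eq_mul] at h3
  rcases mul_eq_zero.1 h3 with h5 | h5
  · exact cast_ne hl hlk hm h5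
  · exact pow_ne_zero _ hb h5

/-- the algebra of claim (1) -/
theorem alg1 {k : Type} [Field k] (r : ZBar →+* k) {l d f m m₁ : ℕ} (hl : l.Prime) (hlk : (l : k) = 0)
    (hd : ¬ l ∣ d) (hm : ¬ l ∣ m) (hm₁ : ¬ l ∣ m₁) {η ζ z c p : ZBar} (hη : r η = 1)
    (hζ : ζ ^ m = 1) (hz : z ^ m₁ = 1) (h1 : η ^ d * ζ = c) (h2 : c ^ f = p ^ d) (h3 : r z = r p) :
    η ^ f * z = p := by
  have hm₁0 : 0 < m₁ := Nat.pos_of_ne_zero fun h => hm₁ (h ▸ dvd_zero l)
  have hz0 : r z ≠ 0 := by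
    intro h
    have h4 := congrArg r hz
    rw [map_pow, h, zero_pow hm₁0.ne', map_one] at h4
    exact zero_ne_one h4
  have h5 : ζ ^ f = z ^ d := by
    refine ru r hl hlk (m := m * m₁) (fun h => ((Nat.Prime.dvd_mul hl).1 h).elim hm hm₁) ?_ ?_ ?_
    · rw [← pow_mul, mul_comm f, pow_mul, pow_mul, hζ, one_pow, one_pow, ← pow_mul,
        mul_comm d, pow_mul, mul_comm m, pow_mul, hz, one_pow, one_pow]
    · have h6 : r ζ = r c := by rw [← h1, map_mul, map_pow, hη, one_pow, one_mul]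
      rw [map_pow, h6, ← map_pow, h2, map_pow, map_pow, h3]
    · rw [map_pow]
      exact pow_ne_zero _ hz0
  refine ru r hl hlk hd ?_ ?_ (h3 ▸ hz0)
  · rw [mul_pow, ← h5, ← pow_mul, mul_comm f, pow_mul, ← mul_pow, h1, h2]
  · rw [map_mul, map_pow, hη, one_pow, one_mul, h3]

/-- closed conditions can be checked at Frobenius elements -/
theorem dens_eq {L : Type} [Field L] [NumberField L] {X : Type} [TopologicalSpace X] [T2Space X]
    (f g : GK L → X) (hf : Continuous f) (hg : Continuous g) {M : ℕ} (hM : 0 < M)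
    (h : ∀ (w : HeightOneSpectrum (𝓞 L)) (s : GK L), (M : 𝓞 L) ∉ w.asIdeal → IsFrob w s → f s = g s)
    (s : GK L) : f s = g s := by
  by_contra hne
  have h1 : IsOpen {x : GK L | f x ≠ g x} := isOpen_ne_fun hf hg
  have h2 : IsOpen ((fun x : GK L => s * x) ⁻¹' {x : GK L | f x ≠ g x}) :=
    h1.preimage (continuous_const_mul s)
  have h3 : (1 : GK L) ∈ (fun x : GK L => s * x) ⁻¹' {x : GK L | f x ≠ g x} := by
    simpa using hne
  obtain ⟨V, hV⟩ := ProfiniteGrp.exist_openNormalSubgroup_sub_open_nhds_of_one h2 h3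
  obtain ⟨w, σ, hw, hσ, hm⟩ := Pool.Agent.H500.R2.frob_ex V.toSubgroup inferInstance V.isOpen' s hM
  have h4 := hV hm
  simp only [Set.mem_preimage, Set.mem_ofPred_eq, mul_inv_cancel_left] at h4
  exact h4 (h w σ hw hσ)

/-- a homomorphism with open kernel is continuous -/
theorem cont_loc {G A X : Type} [Group G] [TopologicalSpace G] [IsTopologicalGroup G] [Group A]
    [TopologicalSpace X] (τ : G →* A) (hτ : IsOpen (τ.ker : Set G)) (j : A → X) :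
    Continuous fun s => j (τ s) := by
  rw [continuous_iff_continuousAt]
  intro s
  have h1 : ∀ᶠ x in 𝓝 s, j (τ s) = j (τ x) := by
    have h2 : IsOpen ((fun x : G => s⁻¹ * x) ⁻¹' (τ.ker : Set G)) :=
      hτ.preimage (continuous_const_mul _)
    have h3 : s ∈ (fun x : G => s⁻¹ * x) ⁻¹' (τ.ker : Set G) := by
      simp
    filter_upwards [h2.mem_nhds h3] with x hx
    have h4 : τ (s⁻¹ * x) = 1 := hx
    rw [map_mul, map_inv, inv_mul_eq_one] at h4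
    rw [h4]
  exact (tendsto_const_nhds (x := j (τ s))).congr' h1

/-- the powers -/
theorem psi_pow {M L : Type} [Field M] [NumberField M] [Field L] [NumberField L] [Algebra M L]
    [IsGalois M L] (ψ : Ideal (𝓞 L) →*₀ ZBar) (u : HeightOneSpectrum (𝓞 M))
    (w : HeightOneSpectrum (𝓞 L)) (hw : Above w u)
    (h : ∀ w' : HeightOneSpectrum (𝓞 L), Above w' u → ψ w'.asIdeal = ψ w.asIdeal) {f : ℕ}
    (hf : Ideal.absNorm w.asIdeal = Ideal.absNorm u.asIdeal ^ f) :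
    ψ (u.asIdeal.map (algebraMap (𝓞 M) (𝓞 L))) ^ f = ψ w.asIdeal ^ Module.finrank M L := by
  classical
  have hu := u.isMaximal
  have hnu : 2 ≤ Ideal.absNorm u.asIdeal := by
    have h1 : Ideal.absNorm u.asIdeal ≠ 0 := Ideal.absNorm_eq_zero_iff.not.2 u.ne_bot
    have h2 : Ideal.absNorm u.asIdeal ≠ 1 := Ideal.absNorm_eq_one_iff.not.2 hu.ne_top
    omega
  have hfac := Ideal.map_algebraMap_eq_finsetProd_pow (R := 𝓞 L) (S := 𝓞 M) (p := u.asIdeal) u.ne_bot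
  have hover : ∀ P ∈ (u.asIdeal.primesOver (𝓞 L)).toFinset, Ideal.absNorm P = Ideal.absNorm w.asIdeal ∧
      ψ P = ψ w.asIdeal := by
    intro P hP
    rw [Set.mem_toFinset] at hP
    have hPp : P.IsPrime := hP.1
    have hPl : P.LiesOver u.asIdeal := hP.2
    have hwl : w.asIdeal.LiesOver u.asIdeal := ⟨hw.symm⟩
    have hwp := w.isPrime
    have hPb : P ≠ ⊥ := Ideal.ne_bot_of_liesOver_of_ne_bot u.ne_bot P
    have hPm : P.IsMaximal := hPp.isMaximal hPb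
    have hwm := w.isMaximal
    constructor
    · rw [Ideal.absNorm_eq_pow_inertiaDeg'_of_liesOver P u.asIdeal u.isPrime u.ne_bot,
        Ideal.absNorm_eq_pow_inertiaDeg'_of_liesOver w.asIdeal u.asIdeal u.isPrime u.ne_bot,
        Ideal.inertiaDeg'_eq_inertiaDeg, Ideal.inertiaDeg'_eq_inertiaDeg,
        ← Ideal.inertiaDegIn_eq_inertiaDeg u.asIdeal P (L ≃ₐ[M] L),
        ← Ideal.inertiaDegIn_eq_inertiaDeg u.asIdeal w.asIdeal (L ≃ₐ[M] L)]
    · exact h ⟨P, hPp, hPb⟩ hPl.over.symm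
  have h1 : ψ (u.asIdeal.map (algebraMap (𝓞 M) (𝓞 L))) = ψ w.asIdeal ^
      (∑ P ∈ (u.asIdeal.primesOver (𝓞 L)).toFinset, P.ramificationIdx (𝓞 M)) := by
    rw [hfac, map_prod, ← Finset.prod_pow_eq_pow_sum]
    refine Finset.prod_congr rfl fun P hP => ?_
    rw [map_pow, (hover P hP).2]
  have h2 : Ideal.absNorm u.asIdeal ^ Module.finrank (𝓞 M) (𝓞 L) = Ideal.absNorm w.asIdeal ^
      (∑ P ∈ (u.asIdeal.primesOver (𝓞 L)).toFinset, P.ramificationIdx (𝓞 M)) := by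
    rw [← Ideal.absNorm_algebraMap (𝓞 M) (𝓞 L) u.asIdeal, hfac, map_prod,
      ← Finset.prod_pow_eq_pow_sum]
    refine Finset.prod_congr rfl fun P hP => ?_
    rw [map_pow, (hover P hP).1]
  have h3 : Module.finrank (𝓞 M) (𝓞 L) = Module.finrank M L :=
    (IsFractionRing.finrank_eq (𝓞 M) M (𝓞 L) L).symm
  rw [hf, ← pow_mul] at h2
  have h4 := Nat.pow_right_injective hnu h2
  rw [← h3, h4, h1, ← pow_mul, mul_comm f]

/-- natural numbers in places -/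
theorem above_nat {M L : Type} [Field M] [NumberField M] [Field L] [NumberField L] [Algebra M L]
    {u : HeightOneSpectrum (𝓞 M)} {w : HeightOneSpectrum (𝓞 L)} (hw : Above w u) (n : ℕ) :
    (n : 𝓞 L) ∈ w.asIdeal ↔ (n : 𝓞 M) ∈ u.asIdeal := by
  rw [← show w.asIdeal.comap (algebraMap (𝓞 M) (𝓞 L)) = u.asIdeal from hw, Ideal.mem_comap, map_natCast]

theorem cop_nat {M : Type} [Field M] [NumberField M] (u : HeightOneSpectrum (𝓞 M)) {n : ℕ}
    (h : (n : 𝓞 M) ∉ u.asIdeal) : IsCoprime u.asIdeal (Ideal.span {(n : 𝓞 M)}) := by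
  rw [Ideal.isCoprime_iff_sup_eq]
  by_contra hne
  have h1 := u.isMaximal.eq_of_le hne le_sup_left
  refine h ?_
  rw [h1]
  exact Ideal.mem_sup_right (Ideal.mem_span_singleton_self _)

theorem main : S_FXE → S_FXF → S_FXC → S_TOW → S_FXJ → S_TINV → S_ROOT → S_AVA → S_ETA := by
  intro hFXE hFXF hFXC hTOW hFXJ hTINV hROOT hAVA K _ _ U H L _ _ _ ιL eL N e l t ψ k _ r τ ℓ _ ι Ψ
    hUn hUo hUH hFL hN hl hlN hlU hlk hψ hH hτ hτF hΨc hΨF
  have hHo : IsOpen (H : Set (GK K)) := Subgroup.isOpen_mono hUH hUo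
  obtain ⟨M, iM1, iM2, iM3, ιM, eM, hFM⟩ := hFXE K H hHo
  obtain ⟨iML, ι', hKML, heML, hFX', hcomp⟩ := hTOW K U H L ιL eL M ιM eM hUo hHo hUH hFL hFM
  obtain ⟨hinj, hrange, hcont, -, -, -, hpow⟩ := hFXC K H M ιM eM hHo hFM
  have hU'n : (U.comap ιM).Normal := hUn.comap ιM
  have hU'o : IsOpen ((U.comap ιM : Subgroup (GK M)) : Set (GK M)) := hUo.preimage hcont
  have hFld : Fld (U.comap ιM) L ι' := hFXF M (U.comap ιM) L ι' (eL.trans eM.symm) hU'n hU'o hFX'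
  obtain ⟨-, -, hcont', -, -, hfr', -⟩ := hFXC M (U.comap ιM) L ι' (eL.trans eM.symm) hU'o hFX'
  have hGal : IsGalois M L := hFld.galois
  have hd : ¬ l ∣ Module.finrank M L := by
    rw [hFld.deg, Subgroup.index_comap, hrange]
    exact fun h => hlU (h.trans ⟨_, (Subgroup.relIndex_mul_index hUH).symm⟩)
  have hww : ∀ (u : HeightOneSpectrum (𝓞 M)) (w w' : HeightOneSpectrum (𝓞 L)), Above w u →
      Above w' u → ψ w.asIdeal = ψ w'.asIdeal := by
    intro u w w' hw hw'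
    obtain ⟨s, s', y, hs, hs', hy⟩ :=
      (hFXJ M (U.comap ιM) L ι' (eL.trans eM.symm) hU'n hU'o hFX').2 u w w' hw hw'
    refine hH (ιM y) ?_ w w' s s' hs hs' ?_
    · rw [← hrange]
      exact ⟨y, rfl⟩
    · rw [← hcomp, ← hcomp, hy, map_mul, map_mul, map_inv]
  have hN0 : 0 < N := by omega
  have hψ' : IsHecke (N ^ (e + 1)) N t ψ := by
    refine ⟨hψ.cop, fun x hx => hψ.typ x ⟨hx.1, ?_, hx.2.2⟩⟩
    refine dvd_trans ?_ hx.2.1
    exact_mod_cast map_dvd (Nat.castRingHom (𝓞 L)) (pow_dvd_pow N (Nat.le_succ e))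
  obtain ⟨t', ht'⟩ := hTINV M L hGal (N ^ (e + 1)) N t ψ (pow_pos hN0 _)
    (dvd_pow_self _ (Nat.succ_ne_zero e)) hψ' hww
  obtain ⟨η₀, hη₀, hη₀r⟩ := hROOT M L N e l t t' ψ k r hN hl hlN hlk hd hψ ht'
  obtain ⟨η₁, hη₁c, hη₁⟩ := hAVA M (N ^ (e + 1) * l) (N * l) t' η₀ (Nat.mul_pos (pow_pos hN0 _) hl.pos)
    (mul_dvd_mul_right (dvd_pow_self _ (Nat.succ_ne_zero e)) _) hη₀ ℓ ι
  have hA : ∀ u : HeightOneSpectrum (𝓞 M), (N : 𝓞 M) ∉ u.asIdeal → (l : 𝓞 M) ∉ u.asIdeal →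
      ((N ^ (e + 1) * l : ℕ) : 𝓞 M) ∉ u.asIdeal := by
    intro u h1 h2 h3
    rw [Nat.cast_mul, Nat.cast_pow] at h3
    rcases u.isPrime.mem_or_mem h3 with h4 | h4
    · exact h1 (u.isPrime.mem_of_pow_mem _ h4)
    · exact h2 h4
  have hB : ∀ u : HeightOneSpectrum (𝓞 M), (N : 𝓞 M) ∉ u.asIdeal → (l : 𝓞 M) ∉ u.asIdeal →
      IsCoprime u.asIdeal (Ideal.span {((N * l : ℕ) : 𝓞 M)}) := by
    intro u h1 h2
    refine cop_nat u fun h3 => ?_
    rw [Nat.cast_mul] at h3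
    exact (u.isPrime.mem_or_mem h3).elim h1 h2
  -- the inverse of `ιM`
  set φ : H →* GK M := (MonoidHom.ofInjective hinj).symm.toMonoidHom.comp
    (MulEquiv.subgroupCongr hrange.symm).toMonoidHom with hφ
  have hφ1 : ∀ h : H, ιM (φ h) = h := by
    intro h
    exact MonoidHom.apply_ofInjective_symm hinj (MulEquiv.subgroupCongr hrange.symm h)
  have hφ2 : ∀ (s : GK M) (hs : ιM s ∈ H), φ ⟨ιM s, hs⟩ = s := fun s hs => hinj (hφ1 _)
  have hφc : Continuous φ := by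
    have h1 : Topology.IsClosedEmbedding ιM := hcont.isClosedEmbedding hinj
    rw [h1.isInducing.continuous_iff]
    have h2 : (ιM ∘ φ : H → GK K) = Subtype.val := funext hφ1
    rw [h2]
    exact continuous_subtype_val
  refine ⟨η₁.comp φ, hη₁c.comp hφc, ?_, ?_⟩
  · -- claim (1)
    intro s hs
    have h1 : (η₁.comp φ) ⟨ιL s, hs⟩ = η₁ (ι' s) := by
      have h2 : (⟨ιL s, hs⟩ : H) = ⟨ιM (ι' s), by rw [hcomp]; exact hs⟩ := Subtype.ext (hcomp s).symm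
      rw [MonoidHom.comp_apply, h2, hφ2]
    rw [h1]
    refine dens_eq (fun s => ((η₁ (ι' s) : (PadicAlgCl ℓ)ˣ) : PadicAlgCl ℓ) * ι (τ s : QBar))
      (fun s => (Ψ s : PadicAlgCl ℓ)) ((hη₁c.comp hcont').mul (cont_loc τ hτ fun z => ι (z : QBar))) hΨc
      (M := N * l * ℓ) (Nat.mul_pos (Nat.mul_pos hN0 hl.pos) (Fact.out : ℓ.Prime).pos) ?_ s
    intro w s hw hs
    rw [Nat.cast_mul, Nat.cast_mul] at hw
    have hw1 : (N : 𝓞 L) ∉ w.asIdeal := fun h => hw (Ideal.mul_mem_right _ _ (Ideal.mul_mem_right _ _ h))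
    have hw2 : (l : 𝓞 L) ∉ w.asIdeal := fun h => hw (Ideal.mul_mem_right _ _ (Ideal.mul_mem_left _ _ h))
    have hw3 : (ℓ : 𝓞 L) ∉ w.asIdeal := fun h => hw (Ideal.mul_mem_left _ _ h)
    obtain ⟨u, hu⟩ : ∃ u : HeightOneSpectrum (𝓞 M), Above w u := ⟨w.under (𝓞 M), rfl⟩
    have hu1 := fun h => hw1 ((above_nat hu N).2 h)
    have hu2 := fun h => hw2 ((above_nat hu l).2 h)
    have hu3 := fun h => hw3 ((above_nat hu ℓ).2 h)
    obtain ⟨f, hf0, hf, hfr⟩ := hfr' u w hu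
    obtain ⟨σ, τ₀, hσ, hτ₀, hs'⟩ := hfr s hs
    obtain ⟨hin, hfro⟩ := hη₁ u (hA u hu1 hu2) hu3
    obtain ⟨hr1, ζ, m, hm0, hm, hζ, hηζ⟩ := hη₀r u.asIdeal (hB u hu1 hu2)
    obtain ⟨z, m₁, hz1, hz2, hm₁0, hm₁, hz3⟩ := hτF w hw1 hw2 s hs
    have h3 := psi_pow ψ u w hu (fun w' hw' => hww u w' w hw' hu) hf
    have h4 := alg1 r hl hlk hd hm hm₁ hr1 hζ hz3 hηζ h3 hz2
    have h5 : ((η₁ (ι' s) : (PadicAlgCl ℓ)ˣ) : PadicAlgCl ℓ) = ι (η₀ u.asIdeal : ZBar) ^ f := by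
      rw [hs', map_mul, map_pow, hin τ₀ hτ₀, mul_one, Units.val_pow_eq_pow_val, hfro σ hσ]
    show ((η₁ (ι' s) : (PadicAlgCl ℓ)ˣ) : PadicAlgCl ℓ) * ι (τ s : QBar) = (Ψ s : PadicAlgCl ℓ)
    rw [h5, hz1, hΨF w hw1 hw3 s hs, ← h4, ← map_pow, ← map_mul]
    rfl
  · -- claim (2)
    intro v hv1 hv2 hv3 σ hσ y m hm h
    obtain ⟨u, s, τ₀, a, hu, hs, hτ₀, ha, hy⟩ := hpow v σ hσ y m hm h
    have hu1 := fun h => hv1 ((above_nat hu N).1 h)
    have hu2 := fun h => hv2 ((above_nat hu l).1 h)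
    have hu3 := fun h => hv3 ((above_nat hu ℓ).1 h)
    obtain ⟨hin, hfro⟩ := hη₁ u (hA u hu1 hu2) hu3
    obtain ⟨hr1, -⟩ := hη₀r u.asIdeal (hB u hu1 hu2)
    refine ⟨η₀ u.asIdeal ^ a, ?_, by rw [map_pow, hr1, one_pow]⟩
    have h1 : (η₁.comp φ) ⟨y⁻¹ * σ ^ m * y, h⟩ = η₁ (s ^ a * τ₀) := by
      have h2 : (⟨y⁻¹ * σ ^ m * y, h⟩ : H) = ⟨ιM (s ^ a * τ₀), by rw [← hy]; exact h⟩ := Subtype.ext hy
      rw [MonoidHom.comp_apply, h2, hφ2]
    rw [h1, map_mul, map_pow, hin τ₀ hτ₀, mul_one, Units.val_pow_eq_pow_val, hfro s hs, ← map_pow]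
    rfl

end Pool.Agent.H218.ED.ETA
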