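import Pool.Agent.H500.ME.Stm
import Pool.Agent.H231.ME.DIV

set_option autoImplicit false
set_option linter.unusedSectionVars false

/-!
# Project ED (helper500), PART D1: invariant types, from the uniqueness of types (by helper218)
-/

namespace Pool.Agent.H218.ED.TINV2

open NumberField IsDedekindDomain Filter Topology
open Pool.Agent.H500.HC (InRay TotPos QBar ZBar jz)
open Pool.Agent.H500.SV (Above)
open Pool.Agent.H500.TH (typB)
open Pool.Agent.H500.ED (IsHecke)
open Pool.Agent.H500.ME (typU IsAlg at1)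
open Pool.Agent.Q92.AR (Dv prin Ray)
open Pool.Agent.H231.ME.DIV (coe_typB coe_typU typU_mul exists_quot)

/-- two embeddings of a Galois extension with the same restriction differ by an automorphism -/
theorem conj {M L : Type} [Field M] [Field L] [Algebra M L] [IsGalois M L]
    (σ₁ σ₂ : L →+* QBar) (h : σ₁.comp (algebraMap M L) = σ₂.comp (algebraMap M L)) :
    ∃ g : L ≃ₐ[M] L, σ₂ = σ₁.comp (g : L →+* L) := by
  let a1 : Algebra L QBar := σ₁.toAlgebra
  let a2 : Algebra M QBar := (σ₁.comp (algebraMap M L)).toAlgebra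
  have : IsScalarTower M L QBar := IsScalarTower.of_algebraMap_eq fun x => rfl
  let τ : L →ₐ[M] QBar := { σ₂ with commutes' := fun x => (RingHom.congr_fun h x).symm }
  refine ⟨Normal.algHomEquivAut M QBar L τ, ?_⟩
  have h1 := (Normal.algHomEquivAut M QBar L).symm_apply_apply τ
  ext x
  have h2 := DFunLike.congr_fun h1 x
  exact h2.symm

variable {M L : Type} [Field M] [NumberField M] [Field L] [NumberField L] [Algebra M L]

/-- the automorphism of the integers -/
noncomputable def gO (g : L ≃ₐ[M] L) : 𝓞 L ≃+* 𝓞 L := RingOfIntegers.mapRingEquiv (g : L ≃+* L)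

theorem gO_coe (g : L ≃ₐ[M] L) (x : 𝓞 L) : (gO g x : L) = g (x : L) := rfl

theorem gO_alg (g : L ≃ₐ[M] L) (x : 𝓞 M) :
    gO g (algebraMap (𝓞 M) (𝓞 L) x) = algebraMap (𝓞 M) (𝓞 L) x := by
  apply RingOfIntegers.ext
  rw [gO_coe]
  exact g.commutes (x : M)

theorem inv_id (ψ : Ideal (𝓞 L) →*₀ ZBar)
    (hww : ∀ (u : HeightOneSpectrum (𝓞 M)) (w w' : HeightOneSpectrum (𝓞 L)), Above w u →
      Above w' u → ψ w.asIdeal = ψ w'.asIdeal) (g : L ≃ₐ[M] L) :
    ∀ I : Ideal (𝓞 L), I ≠ ⊥ → ψ (I.map (gO g)) = ψ I := by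
  refine Pool.Agent.H399.ED.AVA.ideal_ind ?_ ?_
  · rw [Ideal.map_top]
  · intro v I _ ih
    rw [Ideal.map_mul, map_mul, map_mul, ih]
    congr 1
    have hp : (v.asIdeal.map (gO g)).IsPrime := Ideal.map_isPrime_of_equiv (gO g)
    have hb : v.asIdeal.map (gO g) ≠ ⊥ := by
      intro h
      apply v.ne_bot
      exact (Ideal.map_eq_bot_iff_of_injective (gO g).injective).1 h
    let w' : HeightOneSpectrum (𝓞 L) := ⟨v.asIdeal.map (gO g), hp, hb⟩
    refine (hww (v.under (𝓞 M)) w' v ?_ rfl)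
    change (v.asIdeal.map (gO g)).comap (algebraMap (𝓞 M) (𝓞 L)) =
      v.asIdeal.comap (algebraMap (𝓞 M) (𝓞 L))
    ext x
    rw [Ideal.mem_comap, Ideal.mem_comap]
    constructor
    · intro h
      obtain ⟨y, hy, hyx⟩ := (Ideal.mem_map_iff_of_surjective (gO g) (gO g).surjective).1 h
      have h1 : y = algebraMap (𝓞 M) (𝓞 L) x := (gO g).injective (by rw [hyx, gO_alg])
      rwa [← h1]
    · intro h
      rw [← gO_alg g x]
      exact Ideal.mem_map_of_mem _ h

theorem ray_gO {A : ℕ} (g : L ≃ₐ[M] L) {x : 𝓞 L} (hx : InRay A x) : InRay A (gO g x) := by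
  refine ⟨(map_ne_zero_iff _ (gO g).injective).2 hx.1, ?_, fun τ => ?_⟩
  · have h1 := map_dvd (gO g) hx.2.1
    rwa [map_natCast, map_sub, map_one] at h1
  · have h1 := hx.2.2 (τ.comp (g : L →+* L))
    exact h1

theorem typ_inv {A B : ℕ} {t : (L →+* QBar) → ℕ} {ψ : Ideal (𝓞 L) →*₀ ZBar}
    (h : IsHecke A B t ψ)
    (hww : ∀ (u : HeightOneSpectrum (𝓞 M)) (w w' : HeightOneSpectrum (𝓞 L)), Above w u →
      Above w' u → ψ w.asIdeal = ψ w'.asIdeal) (g : L ≃ₐ[M] L) {x : 𝓞 L} (hx : InRay A x) :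
    typB t (gO g x) = typB t x := by
  rw [← h.typ _ (ray_gO g hx), ← h.typ _ hx]
  have h1 := inv_id ψ hww g (Ideal.span {x}) (by
    rw [Ne, Ideal.span_singleton_eq_bot]
    exact hx.1)
  rw [← h1, Ideal.map_span, Set.image_singleton]

/-- reindexing -/
theorem typ_reindex (t : (L →+* QBar) → ℕ) (g : L ≃ₐ[M] L) (x : 𝓞 L) :
    ((typB t (gO g x) : ZBar) : QBar) =
      ((typB (fun σ => t (σ.comp (g.symm : L →+* L))) x : ZBar) : QBar) := by
  rw [coe_typB, coe_typB]
  let e : (L →+* QBar) ≃ (L →+* QBar) :=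
    { toFun := fun σ => σ.comp (g : L →+* L)
      invFun := fun σ => σ.comp (g.symm : L →+* L)
      left_inv := fun σ => by
        ext y
        simp
      right_inv := fun σ => by
        ext y
        simp }
  refine Fintype.prod_equiv e _ _ fun σ => ?_
  have h1 : e.symm (e σ) = σ := e.symm_apply_apply σ
  change σ (g (x : L)) ^ t σ = σ (g (x : L)) ^ t (e.symm (e σ))
  rw [h1]

theorem typU_sub (t₁ t₂ : (L →+* QBar) → ℕ) (X : Lˣ) :
    typU (fun σ => (t₁ σ : ℤ) - t₂ σ) X =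
      typU (fun σ => (t₁ σ : ℤ)) X / typU (fun σ => (t₂ σ : ℤ)) X := by
  unfold typU
  rw [← Finset.prod_div_distrib]
  exact Finset.prod_congr rfl fun σ _ => zpow_sub _ _ _

theorem main (hT : Pool.Agent.H500.ME.S_TYU) : Pool.Agent.H500.ED.S_TINV := by
  classical
  intro M L _ _ _ _ _ hG A B t ψ hA hB hψ hww
  have key : ∀ (g : L ≃ₐ[M] L) (σ : L →+* QBar), t (σ.comp (g.symm : L →+* L)) = t σ := by
    intro g σ
    set t₁ : (L →+* QBar) → ℕ := fun σ => t (σ.comp (g.symm : L →+* L)) with ht₁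
    have h1 : ∀ (y : 𝓞 L) (Y : Lˣ), InRay A y → (Y : L) = y →
        typU (fun σ => (t₁ σ : ℤ) - t σ) Y = 1 := by
      intro y Y hy hY
      rw [typU_sub, div_eq_one]
      apply Units.ext
      rw [coe_typU t₁ y Y hY, coe_typU t y Y hY, ← typ_inv hψ hww g hy, typ_reindex]
    have h2 : IsAlg A (fun σ => (t₁ σ : ℤ) - t σ) (0 : Dv L →+ Additive QBarˣ) := by
      intro x hx
      obtain ⟨y, z, Z, hy, hz, hZ, hY⟩ := exists_quot hA.ne' hx
      have h3 := typU_mul (fun σ => (t₁ σ : ℤ) - t σ) x Z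
      rw [h1 y _ hy hY, h1 z Z hz hZ, mul_one] at h3
      rw [← h3]
      rfl
    have h4 := hT L A (fun σ => (t₁ σ : ℤ) - t σ) 0 1 0 hA h2 (Eventually.of_forall fun w => by
      simp [at1]) σ
    rw [one_mul, sub_eq_zero] at h4
    exact_mod_cast h4
  refine ⟨fun s => if h : ∃ σ : L →+* QBar, σ.comp (algebraMap M L) = s then t h.choose else 0,
    fun σ => ?_⟩
  have h : ∃ σ' : L →+* QBar, σ'.comp (algebraMap M L) = σ.comp (algebraMap M L) := ⟨σ, rfl⟩
  simp only [dif_pos h]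
  have h6 : ∀ σ' : L →+* QBar, σ'.comp (algebraMap M L) = σ.comp (algebraMap M L) → t σ = t σ' := by
    intro σ' hσ'
    obtain ⟨g, hg⟩ := conj σ' σ hσ'
    have h5 := key g σ
    have h7 : σ.comp (g.symm : L →+* L) = σ' := by
      rw [hg]
      ext x
      simp
    rw [h7] at h5
    exact h5.symm
  exact h6 _ h.choose_spec

end Pool.Agent.H218.ED.TINV2
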